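import Pool.Agent.helper37.NG.Spec

set_option autoImplicit false

namespace Pool.Agent.helper37.NG

open Finset Pool.Agent.NK Pool.Agent.helper37.NF

private lemma PO4_gen (T n : ℝ) (hT : 11 ≤ T)
    (key : 0 ≤ 3 * (n - T) * (n - T - 1) * (n - 3) * (3 * (3 * T - 5) * (3 * T - 4) * (3 * T - 2) * (3 * T - 1)) -
      20 * (T - 1) * (2 * T - 1) * (2 * T - 3) * (n * (n - 1) * (n - 2) * (n - 3)) -
      4 * (T - 1) * (T - 2) * (n - T) * (3 * (3 * T - 5) * (3 * T - 4) * (3 * T - 2) * (3 * T - 1))) :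
    g3 T * (n * (n - 1) * (n - 2) * (n - 3)) + 4 * T * (T - 1) * (T - 2) * (n - T) ≤
      3 * T * (n - T) * (n - T - 1) * (n - 3) := by
  unfold g3
  have b1 : 0 < 3 * T - 5 := by linarith
  have b2 : 0 < 3 * T - 4 := by linarith
  have b3 : 0 < 3 * T - 2 := by linarith
  have b4 : 0 < 3 * T - 1 := by linarith
  have hT0 : 0 < T := by linarith
  have hden : 0 < 3 * (3 * T - 5) * (3 * T - 4) * (3 * T - 2) * (3 * T - 1) := by positivity
  have e : 20 * T * (T - 1) * (2 * T - 1) * (2 * T - 3) / (3 * (3 * T - 5) * (3 * T - 4) * (3 * T - 2) * (3 * T - 1)) *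
      (n * (n - 1) * (n - 2) * (n - 3)) =
      (20 * T * (T - 1) * (2 * T - 1) * (2 * T - 3) * (n * (n - 1) * (n - 2) * (n - 3))) /
        (3 * (3 * T - 5) * (3 * T - 4) * (3 * T - 2) * (3 * T - 1)) := by
    rw [div_mul_eq_mul_div]
  rw [e, ← sub_nonneg]
  have h : 3 * T * (n - T) * (n - T - 1) * (n - 3) -
      ((20 * T * (T - 1) * (2 * T - 1) * (2 * T - 3) * (n * (n - 1) * (n - 2) * (n - 3))) /
        (3 * (3 * T - 5) * (3 * T - 4) * (3 * T - 2) * (3 * T - 1)) + 4 * T * (T - 1) * (T - 2) * (n - T)) =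
      T * (3 * (n - T) * (n - T - 1) * (n - 3) * (3 * (3 * T - 5) * (3 * T - 4) * (3 * T - 2) * (3 * T - 1)) -
      20 * (T - 1) * (2 * T - 1) * (2 * T - 3) * (n * (n - 1) * (n - 2) * (n - 3)) -
      4 * (T - 1) * (T - 2) * (n - T) * (3 * (3 * T - 5) * (3 * T - 4) * (3 * T - 2) * (3 * T - 1))) /
        (3 * (3 * T - 5) * (3 * T - 4) * (3 * T - 2) * (3 * T - 1)) := by
    rw [eq_div_iff hden.ne', sub_mul, add_mul, div_mul_cancel₀ _ hden.ne']
    ring
  rw [h]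
  exact div_nonneg (mul_nonneg hT0.le key) hden.le

theorem PO4 : PO4_stmt := by
  intro t n ht h3 h4
  obtain ⟨v, rfl⟩ : ∃ v : ℕ, t = 11 + v := ⟨t - 11, by omega⟩
  obtain ⟨r, hr⟩ : ∃ r : ℕ, n + r = 4 * (11 + v) := ⟨4 * (11 + v) - n, by omega⟩
  have hr1 : 1 ≤ r := by omega
  have hr9 : r ≤ 9 := by omega
  have hv0 : (0 : ℝ) ≤ (v : ℝ) := Nat.cast_nonneg v
  have hn : (n : ℝ) = 4 * (11 + (v : ℝ)) - r := by
    have : (n : ℝ) + r = 4 * (11 + (v : ℝ)) := by exact_mod_cast hr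
    linarith
  have hT : ((11 + v : ℕ) : ℝ) = 11 + (v : ℝ) := by push_cast; ring
  apply PO4_gen
  · rw [hT]; linarith
  · rw [hT, hn]
    clear hn hT hr h3 h4 ht
    generalize (v : ℝ) = x at hv0
    interval_cases r <;> (push_cast; ring_nf; positivity)

end Pool.Agent.helper37.NG
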